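import Pool.Agent.Y912.MW.Main

set_option autoImplicit false

open Real Filter Topology

namespace Pool.Agent.Results.MP_b43922_gt.BoundedGenus

open Pool.Agent.Results.MP_b43922_gt.ControlledMilnorWood

/-- The smallest genus for which some representation of Euler number `e` maps the STANDARD
generators of the surface group to elements within distance `ε` of rotations. -/
noncomputable def gStd (e : ℤ) (ε : ℝ) : ℕ :=
  sInf {g | ∃ ρ : SurfaceGroup g →* PSL2R, HasEulerNumber ρ e ∧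
    NearRotations ε (Set.range PresentedGroup.of) ρ}

/-- Sharp form of the negative answer to Freedman's question, for every Euler number `e`.
(1) For every genus `g ≥ 2 |e| + 5` and EVERY `ε > 0` the surface group of genus `g` has a
generating set of at most `2 g` elements and a representation of Euler number `e` which maps this
generating set `ε`-close to rotations.
(2) Hence `g_e(ε) ≤ 2 |e| + 5` for all `ε > 0`, so `g_e(ε)` is bounded as `ε → 0`; no function with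
limit `∞` is a lower bound for it, and (3) Freedman's lower bound fails for all `e ≠ 0`.
(4) If one insists on the standard generators, the smallest genus has the exact order `|e| / ε`:
it lies between `π |e| / (2 ε)` and `(2 π (|e| + 1) + 1) / ε` for all `0 < ε ≤ 1`. -/
theorem result (e : ℤ) :
    (∀ g : ℕ, 2 * e.natAbs + 5 ≤ g → ∀ ε : ℝ, 0 < ε →
      ∃ (u : Fin g × Bool → SurfaceGroup g) (ρ : SurfaceGroup g →* PSL2R),
        Subgroup.closure (Set.range u) = ⊤ ∧ HasEulerNumber ρ e ∧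
          NearRotations ε (Set.range u) ρ) ∧
    ((∀ ε : ℝ, 0 < ε → (admissible e ε).Nonempty ∧ gMin e ε ≤ 2 * e.natAbs + 5) ∧
      ∀ φ : ℝ → ℝ, Tendsto φ (𝓝[>] 0) atTop → ¬ ∀ᶠ ε in 𝓝[>] 0, φ ε ≤ gMin e ε) ∧
    (e ≠ 0 → ¬ LowerBound e) ∧
    (∀ ε : ℝ, 0 < ε → ε ≤ 1 → π * |(e : ℝ)| / (2 * ε) ≤ gStd e ε ∧
      (gStd e ε : ℝ) ≤ (2 * π * (|(e : ℝ)| + 1) + 1) / ε) := by
  have H1 : ∀ g : ℕ, 2 * e.natAbs + 5 ≤ g → ∀ ε : ℝ, 0 < ε →
      ∃ (u : Fin g × Bool → SurfaceGroup g) (ρ : SurfaceGroup g →* PSL2R),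
        Subgroup.closure (Set.range u) = ⊤ ∧ HasEulerNumber ρ e ∧
          NearRotations ε (Set.range u) ρ := by
    intro g hg ε hε
    obtain ⟨n, rfl⟩ : ∃ n, g = n + 2 := ⟨g - 2, by omega⟩
    have hn : 2 * (e.natAbs + 1) < n := by omega
    have hE : ((e.natAbs : ℕ) : ℝ) = |(e : ℝ)| := by rw [Nat.cast_natAbs, Int.cast_abs]
    rcases le_total 0 e with he | he
    · refine Y912.MW.exists_gen e.natAbs n hn (-1) (Or.inr rfl) e ?_ ε hε
      rw [hE, abs_of_nonneg (by exact_mod_cast he)]; ring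
    · refine Y912.MW.exists_gen e.natAbs n hn 1 (Or.inl rfl) e ?_ ε hε
      rw [hE, abs_of_nonpos (by exact_mod_cast he)]; ring
  have H2 : ∀ ε : ℝ, 0 < ε → 2 * e.natAbs + 5 ∈ admissible e ε := by
    intro ε hε
    obtain ⟨u, ρ, h1, h2, h3⟩ := H1 _ le_rfl ε hε
    exact ⟨Set.range u, ρ, h1, h2, h3⟩
  have H3 : ∀ ε : ℝ, 0 < ε → gMin e ε ≤ 2 * e.natAbs + 5 := fun ε hε => Nat.sInf_le (H2 ε hε)
  refine ⟨H1, ⟨fun ε hε => ⟨⟨_, H2 ε hε⟩, H3 ε hε⟩, ?_⟩, not_lowerBound e, ?_⟩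
  · intro φ hφ hle
    have h1 := hφ.eventually_gt_atTop ((2 * e.natAbs + 5 : ℕ) : ℝ)
    obtain ⟨ε, h2, h3, h4⟩ := ((h1.and hle).and self_mem_nhdsWithin).exists.imp
      fun ε h => (⟨h.1.1, h.1.2, h.2⟩ : _ ∧ _ ∧ _)
    have h5 : (gMin e ε : ℝ) ≤ ((2 * e.natAbs + 5 : ℕ) : ℝ) := by exact_mod_cast H3 ε h4
    linarith
  · intro ε h0 h1
    have hpi3 := pi_gt_three
    obtain ⟨g, hg, ρ, hρ1, hρ2⟩ := exists_std e ε h0 h1
    set T : Set ℕ := {g | ∃ ρ : SurfaceGroup g →* PSL2R, HasEulerNumber ρ e ∧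
      NearRotations ε (Set.range PresentedGroup.of) ρ} with hT
    have hmem : g ∈ T := ⟨ρ, hρ1, hρ2⟩
    have hinf : sInf T ∈ T := Nat.sInf_mem ⟨g, hmem⟩
    constructor
    · obtain ⟨ρ', h2, h3⟩ := hinf
      exact Y912.MW.std_lower h0 (by linarith) h2 h3
    · have h2 : sInf T ≤ g := Nat.sInf_le hmem
      have h3 : ((sInf T : ℕ) : ℝ) ≤ g := by exact_mod_cast h2
      exact h3.trans hg

end Pool.Agent.Results.MP_b43922_gt.BoundedGenus
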